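import Mathlib

set_option autoImplicit false

namespace V1171.GF

open Filter Topology Metric MeasureTheory
open scoped ENNReal

theorem low_bound {E : Type*} [MeasurableSpace E] (μ : Measure E) (K A : Set E) (hA : MeasurableSet A)
    (hAK : A ⊆ K) (f g : E → ℝ) (c : ℝ) (h : ∀ w ∈ A, c ≤ |f w - g w|) :
    ENNReal.ofReal c * μ A ≤ ∫⁻ z in K, ‖f z - g z‖ₑ ∂μ := by
  have h1 : ∫⁻ z in K, A.indicator (fun _ => ENNReal.ofReal c) z ∂μ = ENNReal.ofReal c * μ A := by
    rw [lintegral_indicator_const hA, Measure.restrict_apply hA, Set.inter_eq_left.mpr hAK]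
  rw [← h1]
  apply lintegral_mono
  intro w
  by_cases hw : w ∈ A
  · rw [Set.indicator_of_mem hw]
    show ENNReal.ofReal c ≤ ‖f w - g w‖ₑ
    rw [← ofReal_norm, Real.norm_eq_abs]
    exact ENNReal.ofReal_le_ofReal (h w hw)
  · rw [Set.indicator_of_notMem hw]
    exact zero_le

/-- Abstract step: uniform equicontinuity and `L¹_loc` convergence give locally uniform
convergence. -/
theorem conv_core {E : Type*} [NormedAddCommGroup E] [ProperSpace E] [MeasurableSpace E]
    [BorelSpace E] (μ : Measure E) [μ.IsAddHaarMeasure]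
    {ι : Type*} (l : Filter ι) [l.NeBot] (W : Set E) (hW : IsOpen W) (F : ι → E → ℝ) (g : E → ℝ)
    (hg : AEStronglyMeasurable g (μ.restrict W))
    (heq : ∀ K : Set E, IsCompact K → K ⊆ W → ∀ δ > 0, ∃ η > 0, ∀ᶠ i in l, ∀ z ∈ K, ∀ w ∈ K,
      ‖w - z‖ < η → |F i w - F i z| ≤ δ)
    (hL : ∀ K : Set E, IsCompact K → K ⊆ W →
      Tendsto (fun i => ∫⁻ z in K, ‖F i z - g z‖ₑ ∂μ) l (𝓝 0)) :
    ∃ g' : E → ℝ, (∀ᵐ z ∂(μ.restrict W), g' z = g z) ∧ (∀ z ∉ W, g' z = g z) ∧
      ∀ K : Set E, IsCompact K → K ⊆ W → TendstoUniformlyOn F g' l K := by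
  classical
  set g1 : E → ℝ := hg.mk g with hg1
  have hg1m : StronglyMeasurable g1 := hg.stronglyMeasurable_mk
  have hg1e : g =ᵐ[μ.restrict W] g1 := hg.ae_eq_mk
  have hL1 : ∀ K : Set E, IsCompact K → K ⊆ W →
      Tendsto (fun i => ∫⁻ z in K, ‖F i z - g1 z‖ₑ ∂μ) l (𝓝 0) := by
    intro K hK hKW
    refine (hL K hK hKW).congr fun i => ?_
    apply lintegral_congr_ae
    filter_upwards [ae_restrict_of_ae_restrict_of_subset hKW hg1e] with z hz
    rw [hz]
  -- uniform Cauchy property
  have hcauchy : ∀ K : Set E, IsCompact K → K ⊆ W → UniformCauchySeqOn F l K := by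
    intro K hK hKW
    obtain ⟨η0, hη0, hsub⟩ := hK.exists_cthickening_subset_open hW hKW
    have hK' : IsCompact (cthickening η0 K) := hK.cthickening
    intro u hu
    obtain ⟨δ, hδ, hδu⟩ := Metric.mem_uniformity_dist.mp hu
    obtain ⟨η1, hη1, heq1⟩ := heq _ hK' hsub (δ / 8) (by positivity)
    set η := min η0 η1 with hη
    have hηpos : 0 < η := lt_min hη0 hη1
    set m := μ (ball (0:E) η) with hm
    have hm0 : m ≠ 0 := (measure_ball_pos μ 0 hηpos).ne'
    have hmt : m ≠ ∞ := measure_ball_lt_top.ne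
    set τ := ENNReal.ofReal (δ / 8) * m / 2 with hτ
    have hτpos : 0 < τ := by
      rw [hτ]
      apply ENNReal.div_pos _ (by norm_num)
      exact mul_ne_zero (by simpa using hδ) hm0
    have hev : ∀ᶠ i in l, (∫⁻ z in cthickening η0 K, ‖F i z - g1 z‖ₑ ∂μ < τ) ∧
        ∀ z ∈ cthickening η0 K, ∀ w ∈ cthickening η0 K, ‖w - z‖ < η1 → |F i w - F i z| ≤ δ / 8 :=
      ((hL1 _ hK' hsub).eventually_lt_const hτpos).and heq1
    filter_upwards [hev.prod_mk hev] with p hp z hz
    obtain ⟨⟨hi1, hi2⟩, ⟨hj1, hj2⟩⟩ := hp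
    apply hδu
    rw [Real.dist_eq]
    by_contra hcon
    rw [not_lt] at hcon
    have hzK' : z ∈ cthickening η0 K := self_subset_cthickening K hz
    have hball : ball z η ⊆ cthickening η0 K := by
      intro w hw
      rw [mem_ball, dist_eq_norm] at hw
      apply Metric.mem_cthickening_of_dist_le w z η0 K hz
      rw [dist_eq_norm]
      exact (hw.trans_le (min_le_left _ _)).le
    set A := ball z η ∩ {w | δ / 4 ≤ |g1 w - F p.1 z|} with hA
    set A' := ball z η ∩ {w | δ / 4 ≤ |g1 w - F p.2 z|} with hA'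
    have hAm : MeasurableSet A :=
      measurableSet_ball.inter (measurableSet_le measurable_const
        ((hg1m.measurable.sub measurable_const).norm))
    have hAm' : MeasurableSet A' :=
      measurableSet_ball.inter (measurableSet_le measurable_const
        ((hg1m.measurable.sub measurable_const).norm))
    have hcover : ball z η ⊆ A ∪ A' := by
      intro w hw
      by_cases h1 : δ / 4 ≤ |g1 w - F p.1 z|
      · left; exact ⟨hw, h1⟩
      · right
        refine ⟨hw, ?_⟩
        rw [not_le] at h1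
        show δ / 4 ≤ |g1 w - F p.2 z|
        have h2 : |F p.1 z - F p.2 z| ≤ |g1 w - F p.1 z| + |g1 w - F p.2 z| := by
          have := abs_sub_le (F p.1 z) (g1 w) (F p.2 z)
          rwa [abs_sub_comm (F p.1 z) (g1 w)] at this
        linarith
    have hmz : μ (ball z η) = m := by
      rw [hm, Measure.addHaar_ball_center]
    have h1 : ENNReal.ofReal (δ / 8) * μ A ≤ ∫⁻ z in cthickening η0 K, ‖F p.1 z - g1 z‖ₑ ∂μ := by
      apply low_bound μ _ A hAm (Set.inter_subset_left.trans hball)
      intro w hw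
      have hw1 : ‖w - z‖ < η1 := by
        have := hw.1
        rw [mem_ball, dist_eq_norm] at this
        exact this.trans_le (min_le_right _ _)
      have h2 := hi2 z hzK' w (hball hw.1) hw1
      have h3 : δ / 4 ≤ |g1 w - F p.1 z| := hw.2
      have h4 : |g1 w - F p.1 z| ≤ |F p.1 w - g1 w| + |F p.1 w - F p.1 z| := by
        have := abs_sub_le (g1 w) (F p.1 w) (F p.1 z)
        rwa [abs_sub_comm (g1 w) (F p.1 w)] at this
      linarith
    have h1' : ENNReal.ofReal (δ / 8) * μ A' ≤ ∫⁻ z in cthickening η0 K, ‖F p.2 z - g1 z‖ₑ ∂μ := by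
      apply low_bound μ _ A' hAm' (Set.inter_subset_left.trans hball)
      intro w hw
      have hw1 : ‖w - z‖ < η1 := by
        have := hw.1
        rw [mem_ball, dist_eq_norm] at this
        exact this.trans_le (min_le_right _ _)
      have h2 := hj2 z hzK' w (hball hw.1) hw1
      have h3 : δ / 4 ≤ |g1 w - F p.2 z| := hw.2
      have h4 : |g1 w - F p.2 z| ≤ |F p.2 w - g1 w| + |F p.2 w - F p.2 z| := by
        have := abs_sub_le (g1 w) (F p.2 w) (F p.2 z)
        rwa [abs_sub_comm (g1 w) (F p.2 w)] at this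
      linarith
    have h5 : ENNReal.ofReal (δ / 8) * m < τ + τ := by
      calc ENNReal.ofReal (δ / 8) * m ≤ ENNReal.ofReal (δ / 8) * (μ A + μ A') := by
            gcongr
            rw [← hmz]
            exact (measure_mono hcover).trans (measure_union_le _ _)
        _ = ENNReal.ofReal (δ / 8) * μ A + ENNReal.ofReal (δ / 8) * μ A' := mul_add _ _ _
        _ ≤ _ + _ := add_le_add h1 h1'
        _ < τ + τ := ENNReal.add_lt_add hi1 hj1
    rw [hτ, ENNReal.add_halves] at h5
    exact lt_irrefl _ h5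
  have hlim : ∀ z ∈ W, ∃ y, Tendsto (fun i => F i z) l (𝓝 y) := by
    intro z hz
    have h1 := (hcauchy {z} isCompact_singleton (Set.singleton_subset_iff.mpr hz)).cauchy_map
      (Set.mem_singleton z)
    exact CompleteSpace.complete h1
  choose! f hf using hlim
  set g' : E → ℝ := W.piecewise f g with hg'
  have hg'W : ∀ z ∈ W, g' z = f z := fun z hz => by rw [hg', Set.piecewise_eq_of_mem _ _ _ hz]
  have hunif : ∀ K : Set E, IsCompact K → K ⊆ W → TendstoUniformlyOn F g' l K := by
    intro K hK hKW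
    apply (hcauchy K hK hKW).tendstoUniformlyOn_of_tendsto
    intro z hz
    rw [hg'W z (hKW hz)]
    exact hf z (hKW hz)
  have hcont : ContinuousOn g' W := by
    intro z hz
    apply ContinuousAt.continuousWithinAt
    obtain ⟨s, hs, hsW⟩ := Metric.nhds_basis_closedBall.mem_iff.mp (hW.mem_nhds hz)
    rw [Metric.continuousAt_iff]
    intro δ hδ
    obtain ⟨η, hη, hev⟩ := heq _ (isCompact_closedBall z s) hsW (δ / 2) (by positivity)
    refine ⟨min η s, lt_min hη hs, ?_⟩
    intro w hw
    have hw1 : w ∈ closedBall z s := (hw.trans_le (min_le_right _ _)).le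
    have hw2 : ‖w - z‖ < η := by
      rw [← dist_eq_norm]
      exact hw.trans_le (min_le_left _ _)
    have hzs : z ∈ closedBall z s := mem_closedBall_self hs.le
    have h1 : |g' w - g' z| ≤ δ / 2 := by
      rw [hg'W w (hsW hw1), hg'W z hz]
      have h2 : Tendsto (fun i => |F i w - F i z|) l (𝓝 |f w - f z|) :=
        ((hf w (hsW hw1)).sub (hf z hz)).abs
      apply le_of_tendsto h2
      filter_upwards [hev] with i hi
      exact hi z hzs w hw1 hw2
    rw [Real.dist_eq]
    linarith
  refine ⟨g', ?_, fun z hz => by rw [hg', Set.piecewise_eq_of_notMem _ _ _ hz], hunif⟩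
  -- almost everywhere identity
  have hae : ∀ K : Set E, IsCompact K → K ⊆ W → ∀ᵐ z ∂(μ.restrict K), g' z = g1 z := by
    intro K hK hKW
    have hmeas : AEMeasurable (fun z => ‖g' z - g1 z‖ₑ) (μ.restrict K) :=
      (((hcont.mono hKW).aemeasurable hK.measurableSet).sub hg1m.measurable.aemeasurable).enorm
    have hKfin : μ K ≠ ∞ := hK.measure_lt_top.ne
    have h0 : ∫⁻ z in K, ‖g' z - g1 z‖ₑ ∂μ = 0 := by
      apply le_antisymm _ zero_le
      apply le_of_forall_pos_le_add
      intro ε hε
      rw [zero_add]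
      by_cases hεt : ε = ∞
      · rw [hεt]; exact le_top
      -- choose δ with ofReal δ * μ K ≤ ε / 2
      obtain ⟨δ, hδ, hδK⟩ : ∃ δ : ℝ, 0 < δ ∧ ENNReal.ofReal δ * μ K ≤ ε / 2 := by
        refine ⟨(ε / 2 / (μ K + 1)).toReal, ?_, ?_⟩
        · apply ENNReal.toReal_pos
          · exact (ENNReal.div_pos (ENNReal.div_pos hε.ne' (by norm_num)).ne'
              (by simp [hKfin])).ne'
          · apply (ENNReal.div_lt_top (ENNReal.div_lt_top hεt (by norm_num)).ne (by simp)).ne
        · rw [ENNReal.ofReal_toReal]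
          · calc ε / 2 / (μ K + 1) * μ K ≤ ε / 2 / (μ K + 1) * (μ K + 1) := by
                  gcongr
                  exact le_self_add
              _ = ε / 2 := ENNReal.div_mul_cancel (by simp) (by simp [hKfin])
          · apply (ENNReal.div_lt_top (ENNReal.div_lt_top hεt (by norm_num)).ne (by simp)).ne
      have hu := Metric.tendstoUniformlyOn_iff.mp (hunif K hK hKW) δ hδ
      have hε2 : 0 < ε / 2 := ENNReal.div_pos hε.ne' (by norm_num)
      obtain ⟨i, hi1, hi2⟩ := (hu.and ((hL1 K hK hKW).eventually_lt_const hε2)).exists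
      calc ∫⁻ z in K, ‖g' z - g1 z‖ₑ ∂μ ≤ ∫⁻ z in K, (‖F i z - g1 z‖ₑ + ENNReal.ofReal δ) ∂μ := by
            apply setLIntegral_mono' hK.measurableSet
            intro z hz
            have h1 := hi1 z hz
            rw [Real.dist_eq] at h1
            have h2 : ‖g' z - g1 z‖ₑ ≤ ‖F i z - g1 z‖ₑ + ‖g' z - F i z‖ₑ := by
              have h3 : g' z - g1 z = (F i z - g1 z) + (g' z - F i z) := by ring
              rw [h3]
              exact enorm_add_le _ _
            refine h2.trans ?_
            gcongr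
            rw [← ofReal_norm, Real.norm_eq_abs]
            exact ENNReal.ofReal_le_ofReal h1.le
        _ = ∫⁻ z in K, ‖F i z - g1 z‖ₑ ∂μ + ENNReal.ofReal δ * μ K := by
            rw [lintegral_add_right _ measurable_const, lintegral_const,
              Measure.restrict_apply_univ]
        _ ≤ ε / 2 + ε / 2 := add_le_add hi2.le hδK
        _ = ε := ENNReal.add_halves ε
    rw [lintegral_eq_zero_iff' hmeas] at h0
    filter_upwards [h0] with z hz
    have : ‖g' z - g1 z‖ₑ = 0 := hz
    rw [enorm_eq_zero, sub_eq_zero] at this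
    exact this
  obtain ⟨C, hCc, hCW, hCU, _⟩ := hW.exists_iUnion_isClosed
  have hK : ∀ n, IsCompact (C n ∩ closedBall 0 (n:ℝ)) := fun n =>
    (isCompact_closedBall (0:E) (n:ℝ)).inter_left (hCc n)
  have hUn : ⋃ n : ℕ × ℕ, (C n.1 ∩ closedBall 0 (n.2:ℝ)) = W := by
    apply Set.Subset.antisymm
    · apply Set.iUnion_subset
      intro n
      exact Set.inter_subset_left.trans (hCW n.1)
    · intro z hz
      rw [← hCU] at hz
      obtain ⟨n, hn⟩ := Set.mem_iUnion.mp hz
      obtain ⟨k, hk⟩ := exists_nat_ge ‖z‖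
      rw [Set.mem_iUnion]
      exact ⟨(n, k), hn, by rwa [mem_closedBall_zero_iff]⟩
  have h2 : ∀ᵐ z ∂(μ.restrict W), g' z = g1 z := by
    rw [← hUn, ae_restrict_iUnion_iff]
    intro n
    apply hae
    · exact (isCompact_closedBall (0:E) (n.2:ℝ)).inter_left (hCc n.1)
    · exact Set.inter_subset_left.trans (hCW n.1)
  filter_upwards [h2, hg1e] with z h3 h4
  rw [h3, h4]

end V1171.GF
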