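import Pool.Agent.V1171.GF.Psh

set_option autoImplicit false
set_option linter.unusedSectionVars false
set_option linter.unusedVariables false

namespace V1171.GF

open Filter Topology Metric MeasureTheory

variable {E : Type*} [NormedAddCommGroup E] [NormedSpace ℂ E]

/-- competitors for the pluricomplex Green function of `Ω` with poles at `S` -/
def Cand (Ω S : Set E) (u : E → EReal) : Prop :=
  PSH Ω u ∧ (∀ z ∈ Ω, u z < 0) ∧
    ∀ a ∈ S, ∃ C : ℝ, ∀ᶠ w in 𝓝[≠] a, u w ≤ ((Real.log ‖w - a‖ + C : ℝ) : EReal)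

/-- the pluricomplex Green function -/
noncomputable def Green (Ω S : Set E) (z : E) : EReal := ⨆ (u : E → EReal) (_ : Cand Ω S u), u z

/-- a bounded hyperconvex domain: bounded, open, connected, with a continuous negative
plurisubharmonic exhaustion -/
def Hyperconvex (Ω : Set E) : Prop :=
  IsOpen Ω ∧ IsConnected Ω ∧ Bornology.IsBounded Ω ∧
    ∃ ρ : E → ℝ, ContinuousOn ρ Ω ∧ PSH Ω (fun z => (ρ z : EReal)) ∧ (∀ z ∈ Ω, ρ z < 0) ∧
      ∀ c > 0, ∃ K : Set E, IsCompact K ∧ K ⊆ Ω ∧ ∀ z ∈ Ω, ρ z < -c → z ∈ K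

theorem le_green {Ω S : Set E} {u : E → EReal} (hu : Cand Ω S u) (z : E) : u z ≤ Green Ω S z :=
  le_iSup₂ (f := fun (u : E → EReal) (_ : Cand Ω S u) => u z) u hu

theorem green_le_zero {Ω S : Set E} {z : E} (hz : z ∈ Ω) : Green Ω S z ≤ 0 :=
  iSup₂_le fun _ hu => (hu.2.1 z hz).le

/-- data of the domain -/
structure Dat (Ω : Set E) (ρ : E → ℝ) (R r : ℝ) (N : ℕ) : Prop where
  op : IsOpen Ω
  cont : ContinuousOn ρ Ω
  psh : PSH Ω (fun z => (ρ z : EReal))
  neg : ∀ z ∈ Ω, ρ z < 0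
  exh : ∀ c > 0, ∃ K : Set E, IsCompact K ∧ K ⊆ Ω ∧ ∀ z ∈ Ω, ρ z < -c → z ∈ K
  R1 : 1 ≤ R
  rpos : 0 < r
  bd : ∀ z ∈ Ω, ‖z‖ < R / 2
  ball : closedBall (0:E) (3 * r) ⊆ Ω
  N1 : 1 ≤ N

theorem Dat.rR {Ω : Set E} {ρ : E → ℝ} {R r : ℝ} {N : ℕ} (D : Dat Ω ρ R r N) {a : E} (ha : ‖a‖ ≤ r / 2)
    {z : E} (hz : z ∈ Ω) (hnz : ∃ y : E, ‖y‖ = 3 * r) : ‖z - a‖ < R := by
  obtain ⟨y, hy⟩ := hnz
  have h1 := D.bd y (D.ball (by rw [mem_closedBall_zero_iff, hy]))
  have h2 := D.bd z hz
  have h3 := norm_sub_le z a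
  have := D.rpos
  linarith

/-- the upper bound of `bz` by one pole -/
theorem bz_le {N : ℕ} (a : Fin N → E) {R : ℝ} (hR : 0 < R) (ζ : E) (h : ∀ j, ‖ζ - a j‖ ≤ R)
    (j : Fin N) : bz a R ζ ≤ elog (‖ζ - a j‖ / R) := by
  unfold bz
  apply elog_mono
  rw [← Finset.mul_prod_erase Finset.univ _ (Finset.mem_univ j)]
  have h1 : ∏ i ∈ Finset.univ.erase j, (‖ζ - a i‖ / R) ≤ 1 := by
    apply Finset.prod_le_one
    · intro i _; positivity
    · intro i _
      rw [div_le_one hR]
      exact h i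
  have h2 : 0 ≤ ‖ζ - a j‖ / R := by positivity
  nlinarith

theorem bz_neg {N : ℕ} (hN : 1 ≤ N) (a : Fin N → E) {R : ℝ} (hR : 0 < R) (ζ : E)
    (h : ∀ j, ‖ζ - a j‖ < R) : bz a R ζ < 0 := by
  refine (bz_le a hR ζ (fun j => (h j).le) ⟨0, hN⟩).trans_lt ?_
  unfold elog
  rw [ENNReal.log_lt_zero_iff]
  rw [← ENNReal.ofReal_one]
  apply (ENNReal.ofReal_lt_ofReal_iff (by norm_num)).mpr
  rw [div_lt_one hR]
  exact h _

theorem bz_ge {N : ℕ} (a : Fin N → E) {R : ℝ} (hR : 0 < R) (ζ : E) {s : ℝ} (hs : 0 < s)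
    (h : ∀ j, s ≤ ‖ζ - a j‖) : ((N * Real.log (s / R) : ℝ) : EReal) ≤ bz a R ζ := by
  have h1 : (s / R) ^ N ≤ ∏ j, (‖ζ - a j‖ / R) := by
    calc (s / R) ^ N = ∏ _j : Fin N, (s / R) := by
          rw [Finset.prod_const, Finset.card_univ, Fintype.card_fin]
      _ ≤ _ := by
        apply Finset.prod_le_prod
        · intro _ _; positivity
        · intro j _
          exact div_le_div_of_nonneg_right (h j) hR.le
  have h2 : 0 < (s / R) ^ N := by positivity
  unfold bz
  refine le_trans ?_ (elog_mono h1)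
  rw [elog_pos h2, Real.log_pow]

/-- **uniform lower competitors** -/
theorem exists_b [ProperSpace E] {Ω : Set E} {ρ : E → ℝ} {R r : ℝ} {N : ℕ} (D : Dat Ω ρ R r N)
    (hnz : ∃ y : E, ‖y‖ = 3 * r) (δ : ℝ) (hδ : 0 < δ) :
    ∃ c > 0, (∀ z, ‖z‖ ≤ 3 * r → ρ z < -c) ∧ ∀ a : Fin N → E, (∀ j, ‖a j‖ ≤ r / 2) →
      ∃ b : E → EReal, PSH Ω b ∧ (∀ z ∈ Ω, b z < 0) ∧ (∀ z ∈ Ω, bz a R z ≤ b z) ∧
        (∀ z ∈ Ω, -c ≤ ρ z → ((-δ : ℝ) : EReal) ≤ b z) ∧ (∀ z, ‖z‖ < 2 * r → b z = bz a R z) := by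
  have hr := D.rpos
  have hR0 : 0 < R := lt_of_lt_of_le one_pos D.R1
  obtain ⟨y, hy⟩ := hnz
  obtain ⟨z0, hz0, hmax⟩ := (isCompact_closedBall (0:E) (3 * r)).exists_isMaxOn
    ⟨y, by rw [mem_closedBall_zero_iff, hy]⟩ (D.cont.mono D.ball)
  set c0 := -ρ z0 with hc0
  have hc0pos : 0 < c0 := by have := D.neg z0 (D.ball hz0); linarith
  have hρ : ∀ z, ‖z‖ ≤ 3 * r → ρ z ≤ -c0 := by
    intro z hz
    have := hmax (show z ∈ closedBall (0:E) (3 * r) by rwa [mem_closedBall_zero_iff])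
    rw [hc0, neg_neg]
    exact this
  set C1 := |N * Real.log (r / 2 / R)| + 1 with hC1
  have hC1pos : 0 < C1 := by positivity
  set M := C1 / c0 with hM
  have hMpos : 0 < M := by positivity
  refine ⟨min (δ / M) (c0 / 2), by positivity, ?_, ?_⟩
  · intro z hz
    have h1 := hρ z hz
    have h2 := min_le_right (δ / M) (c0 / 2)
    linarith
  intro a ha
  have hshell : ∀ z : E, r ≤ ‖z‖ → ‖z‖ ≤ 3 * r → ((M * ρ z : ℝ) : EReal) ≤ bz a R z := by
    intro z h1 h2
    refine le_trans ?_ (bz_ge a hR0 z (s := r / 2) (by positivity) ?_)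
    · rw [EReal.coe_le_coe_iff]
      have h3 := hρ z h2
      have h4 : M * ρ z ≤ M * (-c0) := mul_le_mul_of_nonneg_left h3 hMpos.le
      have h5 : M * (-c0) = -C1 := by rw [hM]; field_simp
      have h6 := neg_abs_le (N * Real.log (r / 2 / R))
      linarith
    · intro j
      have h3 := norm_sub_norm_le z (a j)
      have h4 := ha j
      linarith
  set b : E → EReal := fun z => if ‖z‖ < 2 * r then bz a R z else max (bz a R z) ((M * ρ z : ℝ) : EReal)
    with hb
  have hbz : PSH Ω (bz a R) := (bz_psh a R hR0).mono (Set.subset_univ _)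
  have hMρ : PSH Ω (fun z => ((M * ρ z : ℝ) : EReal)) := D.psh.mul_real M hMpos
  have hlt : ∀ z ∈ Ω, ∀ j, ‖z - a j‖ < R := fun z hz j => D.rR (ha j) hz ⟨y, hy⟩
  refine ⟨b, ?_, ?_, ?_, ?_, ?_⟩
  · apply PSH.of_local
    intro x hx
    by_cases hx3 : ‖x‖ < 3 * r
    · refine ⟨Metric.ball 0 (3 * r), isOpen_ball, by rwa [mem_ball_zero_iff], bz a R,
        hbz.mono (ball_subset_closedBall.trans D.ball), ?_⟩
      intro z hz
      rw [mem_ball_zero_iff] at hz
      simp only [hb]
      by_cases h2 : ‖z‖ < 2 * r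
      · rw [if_pos h2]
      · rw [if_neg h2]
        apply max_eq_left
        exact hshell z (by linarith) hz.le
    · refine ⟨Ω ∩ {z | r < ‖z‖}, D.op.inter (isOpen_lt continuous_const continuous_norm),
        ⟨hx, by show r < ‖x‖; linarith⟩, fun z => max (bz a R z) ((M * ρ z : ℝ) : EReal),
        (hbz.max hMρ).mono Set.inter_subset_left, ?_⟩
      intro z hz
      have hz2 : r < ‖z‖ := hz.2
      simp only [hb]
      by_cases h2 : ‖z‖ < 2 * r
      · rw [if_pos h2]
        exact (max_eq_left (hshell z hz2.le (by linarith))).symm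
      · rw [if_neg h2]
  · intro z hz
    simp only [hb]
    have h1 := bz_neg D.N1 a hR0 z (hlt z hz)
    split_ifs
    · exact h1
    · apply max_lt h1
      rw [← EReal.coe_zero, EReal.coe_lt_coe_iff]
      have := D.neg z hz
      nlinarith
  · intro z _
    simp only [hb]
    split_ifs
    · exact le_rfl
    · exact le_max_left _ _
  · intro z _ hz
    have h1 : ¬ ‖z‖ < 2 * r := by
      intro h
      have h2 := hρ z (by linarith)
      have h3 := min_le_right (δ / M) (c0 / 2)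
      linarith
    simp only [hb]
    rw [if_neg h1]
    refine le_trans ?_ (le_max_right _ _)
    rw [EReal.coe_le_coe_iff]
    have h3 := min_le_left (δ / M) (c0 / 2)
    have h4 : -(δ / M) ≤ ρ z := by linarith
    calc -δ = M * (-(δ / M)) := by field_simp
      _ ≤ M * ρ z := mul_le_mul_of_nonneg_left h4 hMpos.le
  · intro z hz
    simp only [hb]
    rw [if_pos hz]

theorem b_cand [ProperSpace E] {Ω : Set E} {ρ : E → ℝ} {R r : ℝ} {N : ℕ} (D : Dat Ω ρ R r N)
    (hnz : ∃ y : E, ‖y‖ = 3 * r) {a : Fin N → E} (ha : ∀ j, ‖a j‖ ≤ r / 2) {b : E → EReal}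
    (hb1 : PSH Ω b) (hb2 : ∀ z ∈ Ω, b z < 0) (hb5 : ∀ z, ‖z‖ < 2 * r → b z = bz a R z)
    (j : Fin N) : ∀ᶠ w in 𝓝[≠] (a j), b w ≤ ((Real.log ‖w - a j‖ - Real.log R : ℝ) : EReal) := by
  have hr := D.rpos
  have hR0 : 0 < R := lt_of_lt_of_le one_pos D.R1
  have h1 : ∀ᶠ w in 𝓝 (a j), ‖w‖ < 2 * r :=
    (continuous_norm.tendsto (a j)).eventually (eventually_lt_nhds (by have := ha j; linarith))
  filter_upwards [h1.filter_mono nhdsWithin_le_nhds, self_mem_nhdsWithin] with w hw hne
  rw [hb5 w hw]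
  have hwΩ : w ∈ Ω := D.ball (by rw [mem_closedBall_zero_iff]; linarith)
  refine (bz_le a hR0 w (fun i => (D.rR (ha i) hwΩ hnz).le) j).trans ?_
  have h2 : 0 < ‖w - a j‖ := norm_pos_iff.mpr (sub_ne_zero.mpr hne)
  rw [elog_pos (by positivity), Real.log_div h2.ne' hR0.ne']

/-- **the equicontinuity estimate** -/
theorem main_ineq [ProperSpace E] {Ω : Set E} {ρ : E → ℝ} {R r : ℝ} {N : ℕ} (D : Dat Ω ρ R r N)
    (hnz : ∃ y : E, ‖y‖ = 3 * r) (δ κ : ℝ) (hδ : 0 < δ) (hκ : 0 < κ) :
    ∃ η > 0, ∃ σ > 0, ∀ a : Fin N → E, (∀ j, ‖a j‖ < σ) → ∀ z ∈ Ω, κ ≤ ‖z‖ → ∀ w ∈ Ω,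
      ‖w - z‖ < η → Green Ω (Set.range a) w ≤ Green Ω (Set.range a) z + (δ : EReal) := by
  have hr := D.rpos
  have hR0 : 0 < R := lt_of_lt_of_le one_pos D.R1
  obtain ⟨c, hc, hcball, hb⟩ := exists_b D hnz δ hδ
  obtain ⟨K, hK, hKΩ, hKc⟩ := D.exh (c / 4) (by positivity)
  obtain ⟨d, hd, hdK⟩ := hK.exists_thickening_subset_open D.op hKΩ
  set B : ℝ := R ^ N / (κ / 2) ^ N with hB
  have hBpos : 0 < B := by positivity
  refine ⟨min d 1 / (2 * B), by positivity, min (r / 2) (κ / 2), by positivity, ?_⟩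
  intro a ha z hz hzκ w hw hwz
  have ha1 : ∀ j, ‖a j‖ ≤ r / 2 := fun j => ((ha j).trans_le (min_le_left _ _)).le
  have ha2 : ∀ j, ‖a j‖ ≤ κ / 2 := fun j => ((ha j).trans_le (min_le_right _ _)).le
  obtain ⟨b, hb1, hb2, hb3, hb4, hb5⟩ := hb a ha1
  obtain ⟨g, hg1, hg2⟩ := exists_dual_vector'' ℂ z
  have hgle : ∀ x, ‖g x‖ ≤ ‖x‖ := by
    intro x
    refine (g.le_opNorm x).trans ?_
    have := mul_le_mul_of_nonneg_right hg1 (norm_nonneg x)
    rwa [one_mul] at this
  set P : E → ℂ := fun ζ => ∏ j, g (ζ - a j) with hP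
  set q := w - z with hq
  have hPz : (κ / 2) ^ N ≤ ‖P z‖ := by
    rw [hP]
    simp only
    rw [norm_prod]
    calc (κ / 2) ^ N = ∏ _j : Fin N, (κ / 2) := by
          rw [Finset.prod_const, Finset.card_univ, Fintype.card_fin]
      _ ≤ _ := by
        apply Finset.prod_le_prod
        · intro _ _; positivity
        · intro j _
          rw [map_sub]
          have h1 := norm_sub_norm_le (g z) (g (a j))
          have h2 := hgle (a j)
          have h3 := ha2 j
          have h4 : ‖g z‖ = ‖z‖ := by rw [hg2]; simp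
          linarith
  have hPz0 : 0 < ‖P z‖ := lt_of_lt_of_le (by positivity) hPz
  have hPz0' : P z ≠ 0 := norm_pos_iff.mp hPz0
  set Φ : E → E := fun ζ => ζ + (P ζ / P z) • q with hΦ
  have hΦz : Φ z = w := by
    simp only [hΦ]
    rw [div_self hPz0', one_smul, hq]
    abel
  have hPan : ∀ x, AnalyticAt ℂ P x := by
    intro x
    rw [hP]
    apply Finset.analyticAt_fun_prod
    intro j _
    exact ((g.analyticAt _).comp (analyticAt_id.sub analyticAt_const))
  have hΦan : ∀ x, AnalyticAt ℂ Φ x := by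
    intro x
    exact analyticAt_id.add (((hPan x).div_const).smul analyticAt_const)
  have hlt : ∀ x ∈ Ω, ∀ j, ‖x - a j‖ < R := fun x hx j => D.rR (ha1 j) hx hnz
  have hPΩ : ∀ x ∈ Ω, ‖P x‖ ≤ R ^ N := by
    intro x hx
    rw [hP]
    simp only
    rw [norm_prod]
    calc ∏ j, ‖g (x - a j)‖ ≤ ∏ _j : Fin N, R := by
          apply Finset.prod_le_prod
          · intro _ _; positivity
          · intro j _
            exact (hgle _).trans (hlt x hx j).le
      _ = R ^ N := by simp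
  have hPj : ∀ x ∈ Ω, ∀ j, ‖P x‖ ≤ ‖x - a j‖ * R ^ N := by
    intro x hx j
    rw [hP]
    simp only
    rw [norm_prod, ← Finset.mul_prod_erase Finset.univ _ (Finset.mem_univ j)]
    have h1 : ∏ i ∈ Finset.univ.erase j, ‖g (x - a i)‖ ≤ R ^ N := by
      calc ∏ i ∈ Finset.univ.erase j, ‖g (x - a i)‖ ≤ ∏ _i ∈ Finset.univ.erase j, R := by
            apply Finset.prod_le_prod
            · intro _ _; positivity
            · intro i _
              exact (hgle _).trans (hlt x hx i).le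
        _ = R ^ (N - 1) := by
            rw [Finset.prod_const, Finset.card_erase_of_mem (Finset.mem_univ j)]
            simp
        _ ≤ R ^ N := pow_le_pow_right₀ D.R1 (by omega)
    exact mul_le_mul (hgle _) h1 (Finset.prod_nonneg fun _ _ => norm_nonneg _) (norm_nonneg _)
  have hqB : ‖q‖ * B < min d 1 / 2 := by
    have h1 : ‖q‖ * (2 * B) < min d 1 := (lt_div_iff₀ (by positivity)).mp hwz
    linarith
  have hmove : ∀ x ∈ Ω, ‖Φ x - x‖ ≤ ‖P x‖ / (κ / 2) ^ N * ‖q‖ := by
    intro x _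
    simp only [hΦ]
    rw [add_sub_cancel_left, norm_smul, norm_div]
    apply mul_le_mul_of_nonneg_right _ (norm_nonneg _)
    exact div_le_div_of_nonneg_left (norm_nonneg _) (by positivity) hPz
  have hΦΩ : ∀ x ∈ Ω, ρ x < -(c / 4) → Φ x ∈ Ω := by
    intro x hx hρx
    apply hdK
    rw [mem_thickening_iff]
    refine ⟨x, hKc x hx hρx, ?_⟩
    rw [dist_eq_norm]
    refine (hmove x hx).trans_lt ?_
    have h1 : ‖P x‖ / (κ / 2) ^ N ≤ B := by
      rw [hB]
      exact div_le_div_of_nonneg_right (hPΩ x hx) (by positivity)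
    have h2 := mul_le_mul_of_nonneg_right h1 (norm_nonneg q)
    have h3 := min_le_left d 1
    nlinarith
  have hΦj : ∀ x ∈ Ω, ∀ j, ‖Φ x - x‖ ≤ ‖x - a j‖ / 2 := by
    intro x hx j
    refine (hmove x hx).trans ?_
    have h1 : ‖P x‖ / (κ / 2) ^ N ≤ ‖x - a j‖ * B := by
      rw [hB, ← mul_div_assoc]
      exact div_le_div_of_nonneg_right (hPj x hx j) (by positivity)
    have h2 := mul_le_mul_of_nonneg_right h1 (norm_nonneg q)
    have h3 := min_le_right d 1
    have h4 : 0 ≤ ‖x - a j‖ := norm_nonneg _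
    nlinarith
  -- the comparison
  have key : ∀ u, Cand Ω (Set.range a) u → u w - (δ : EReal) ≤ Green Ω (Set.range a) z := by
    intro u hu
    have huδ : ∀ x ∈ Ω, u x - (δ : EReal) ≤ ((-δ : ℝ) : EReal) := by
      intro x hx
      rw [EReal.sub_le_iff_le_add (Or.inl (EReal.coe_ne_bot _)) (Or.inl (EReal.coe_ne_top _))]
      have h1 : ((-δ : ℝ) : EReal) + (δ : EReal) = 0 := by
        rw [← EReal.coe_add]
        simp
      rw [h1]
      exact (hu.2.1 x hx).le
    set v : E → EReal := fun x => if ρ x < -(c / 2) then max (u (Φ x) - (δ : EReal)) (b x) else b x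
      with hv
    have hvc : Cand Ω (Set.range a) v := by
      refine ⟨?_, ?_, ?_⟩
      · apply PSH.of_local
        intro x hx
        by_cases hx1 : ρ x < -(c / 4)
        · have hUo : IsOpen (Ω ∩ ρ ⁻¹' (Set.Iio (-(c / 4)))) :=
            D.cont.isOpen_inter_preimage D.op isOpen_Iio
          refine ⟨Ω ∩ ρ ⁻¹' (Set.Iio (-(c / 4))), hUo, ⟨hx, hx1⟩,
            fun x => max (u (Φ x) - (δ : EReal)) (b x), ?_, ?_⟩
          · apply PSH.max
            · exact (hu.1.comp Φ (fun x _ => hΦan x) (fun x hx => hΦΩ x hx.1 hx.2)).sub_const δ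
            · exact hb1.mono Set.inter_subset_left
          · intro y hy
            simp only [hv]
            split_ifs with h2
            · rfl
            · rw [not_lt] at h2
              symm
              apply max_eq_right
              exact (huδ _ (hΦΩ y hy.1 hy.2)).trans (hb4 y hy.1 (by linarith))
        · have hUo : IsOpen (Ω ∩ ρ ⁻¹' (Set.Ioi (-c))) :=
            D.cont.isOpen_inter_preimage D.op isOpen_Ioi
          refine ⟨Ω ∩ ρ ⁻¹' (Set.Ioi (-c)), hUo, ⟨hx, by show -c < ρ x; rw [not_lt] at hx1; linarith⟩,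
            b, hb1.mono Set.inter_subset_left, ?_⟩
          intro y hy
          have hy2 : -c < ρ y := hy.2
          simp only [hv]
          split_ifs with h2
          · apply max_eq_right
            exact (huδ _ (hΦΩ y hy.1 (by linarith))).trans (hb4 y hy.1 hy2.le)
          · rfl
      · intro x hx
        simp only [hv]
        split_ifs with h2
        · apply max_lt _ (hb2 x hx)
          refine (huδ _ (hΦΩ x hx (by linarith))).trans_lt ?_
          rw [← EReal.coe_zero, EReal.coe_lt_coe_iff]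
          linarith
        · exact hb2 x hx
      · rintro _ ⟨j, rfl⟩
        obtain ⟨C, hC⟩ := hu.2.2 (a j) ⟨j, rfl⟩
        have hbj := b_cand D hnz ha1 hb1 hb2 hb5 j
        refine ⟨max (C + Real.log 2) (-Real.log R), ?_⟩
        have hPa : P (a j) = 0 := by
          rw [hP]
          simp only
          apply Finset.prod_eq_zero (Finset.mem_univ j)
          simp
        have hΦa : Φ (a j) = a j := by
          simp only [hΦ]
          rw [hPa]
          simp
        have haΩ : a j ∈ Ω := D.ball (by rw [mem_closedBall_zero_iff]; have := ha1 j; linarith)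
        have hfar : ∀ x ∈ Ω, x ≠ a j → ‖x - a j‖ / 2 ≤ ‖Φ x - a j‖ ∧ ‖Φ x - a j‖ ≤ 2 * ‖x - a j‖ := by
          intro x hx _
          have h1 := hΦj x hx j
          have h2 : Φ x - a j = (x - a j) + (Φ x - x) := by abel
          have h3 := norm_add_le (x - a j) (Φ x - x)
          have h4 := norm_sub_le ((x - a j) + (Φ x - x)) (Φ x - x)
          rw [add_sub_cancel_right] at h4
          have h5 : 0 ≤ ‖x - a j‖ := norm_nonneg _
          rw [h2]
          constructor <;> linarith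
        have htend : Tendsto Φ (𝓝[≠] (a j)) (𝓝[≠] (a j)) := by
          apply tendsto_nhdsWithin_of_tendsto_nhds_of_eventually_within
          · have := (hΦan (a j)).continuousAt.tendsto
            rw [hΦa] at this
            exact this.mono_left nhdsWithin_le_nhds
          · filter_upwards [(D.op.mem_nhds haΩ : Ω ∈ 𝓝 (a j)) |> mem_nhdsWithin_of_mem_nhds,
              self_mem_nhdsWithin] with x hx hne
            have h1 := (hfar x hx hne).1
            have h2 : 0 < ‖x - a j‖ := norm_pos_iff.mpr (sub_ne_zero.mpr hne)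
            have h3 : 0 < ‖Φ x - a j‖ := by linarith
            exact sub_ne_zero.mp (norm_pos_iff.mp h3)
        filter_upwards [hbj, htend.eventually hC,
          (D.op.mem_nhds haΩ : Ω ∈ 𝓝 (a j)) |> mem_nhdsWithin_of_mem_nhds,
          self_mem_nhdsWithin] with x h1 h2 hx hne
        have h3 : 0 < ‖x - a j‖ := norm_pos_iff.mpr (sub_ne_zero.mpr hne)
        have hb' : b x ≤ ((Real.log ‖x - a j‖ + max (C + Real.log 2) (-Real.log R) : ℝ) : EReal) := by
          refine h1.trans ?_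
          rw [EReal.coe_le_coe_iff]
          have := le_max_right (C + Real.log 2) (-Real.log R)
          linarith
        simp only [hv]
        split_ifs with h4
        · apply max_le _ hb'
          have h5 : u (Φ x) - (δ : EReal) ≤ u (Φ x) := by
            rw [EReal.sub_le_iff_le_add (Or.inl (EReal.coe_ne_bot _)) (Or.inl (EReal.coe_ne_top _))]
            calc u (Φ x) = u (Φ x) + 0 := by rw [add_zero]
              _ ≤ u (Φ x) + (δ : EReal) := by
                apply add_le_add_right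
                exact_mod_cast hδ.le
          refine (h5.trans h2).trans ?_
          rw [EReal.coe_le_coe_iff]
          obtain ⟨h6, h7⟩ := hfar x hx hne
          have h8 : Real.log ‖Φ x - a j‖ ≤ Real.log (2 * ‖x - a j‖) :=
            Real.log_le_log (by linarith) h7
          rw [Real.log_mul (by norm_num) h3.ne'] at h8
          have := le_max_left (C + Real.log 2) (-Real.log R)
          linarith
        · exact hb'
    refine le_trans ?_ (le_green hvc z)
    simp only [hv]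
    split_ifs with h1
    · rw [hΦz]
      exact le_max_left _ _
    · rw [not_lt] at h1
      exact (huδ w hw).trans (hb4 z hz (by linarith))
  apply iSup₂_le
  intro u hu
  have := key u hu
  rwa [EReal.sub_le_iff_le_add (Or.inl (EReal.coe_ne_bot _)) (Or.inl (EReal.coe_ne_top _))] at this

/-- finiteness of the Green function away from the poles -/
theorem green_finite [ProperSpace E] {Ω : Set E} {ρ : E → ℝ} {R r : ℝ} {N : ℕ} (D : Dat Ω ρ R r N)
    (hnz : ∃ y : E, ‖y‖ = 3 * r) (a : Fin N → E) (ha : ∀ j, ‖a j‖ ≤ r / 2) (z : E) (hz : z ∈ Ω)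
    (hne : ∀ j, z ≠ a j) : Green Ω (Set.range a) z ≠ ⊥ ∧ Green Ω (Set.range a) z ≠ ⊤ := by
  have hr := D.rpos
  have hR0 : 0 < R := lt_of_lt_of_le one_pos D.R1
  obtain ⟨c, hc, hcball, hb⟩ := exists_b D hnz 1 one_pos
  obtain ⟨b, hb1, hb2, hb3, hb4, hb5⟩ := hb a ha
  have hcand : Cand Ω (Set.range a) b := by
    refine ⟨hb1, hb2, ?_⟩
    rintro _ ⟨j, rfl⟩
    exact ⟨-Real.log R, b_cand D hnz ha hb1 hb2 hb5 j⟩
  constructor
  · have h1 : 0 < ∏ j, (‖z - a j‖ / R) := by
      apply Finset.prod_pos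
      intro j _
      have : 0 < ‖z - a j‖ := norm_pos_iff.mpr (sub_ne_zero.mpr (hne j))
      positivity
    have h2 : bz a R z ≠ ⊥ := by
      unfold bz
      rw [elog_pos h1]
      exact EReal.coe_ne_bot _
    intro h3
    have h4 := (hb3 z hz).trans (le_green hcand z)
    rw [h3, le_bot_iff] at h4
    exact h2 h4
  · intro h
    have h5 : Green Ω (Set.range a) z ≤ 0 := green_le_zero hz
    rw [h] at h5
    exact absurd h5 (by simp)

end V1171.GF
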