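import Mathlib

set_option autoImplicit false

namespace V1171.GF

open Filter Topology Metric MeasureTheory

variable {E : Type*} [NormedAddCommGroup E] [NormedSpace ℂ E]

/-- Plurisubharmonic functions `u : Ω → [-∞, ∞)` (with values in `EReal`): upper semicontinuous,
`< ∞`, and sub-mean value property on all small circles of analytic discs `φ`, `φ 0 ∈ Ω`.
The mean of `u ∘ φ` over a circle is the infimum of the means of its continuous majorants `h`. -/
structure PSH (Ω : Set E) (u : E → EReal) : Prop where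
  usc : UpperSemicontinuousOn u Ω
  lt_top : ∀ z ∈ Ω, u z < ⊤
  submean : ∀ φ : ℂ → E, AnalyticAt ℂ φ 0 → φ 0 ∈ Ω →
    ∀ᶠ r in 𝓝[>] (0:ℝ), ∀ h : ℝ → ℝ, Continuous h →
      (∀ θ : ℝ, u (φ (circleMap 0 r θ)) ≤ (h θ : EReal)) →
      u (φ 0) ≤ (((2 * Real.pi)⁻¹ * ∫ θ in (0:ℝ)..(2 * Real.pi), h θ : ℝ) : EReal)

theorem small_circle {φ : ℂ → E} (hφ : AnalyticAt ℂ φ 0) {U : Set E} (hU : IsOpen U)
    (h0 : φ 0 ∈ U) : ∀ᶠ r in 𝓝[>] (0:ℝ), ∀ θ : ℝ, φ (circleMap 0 r θ) ∈ U := by
  have h1 : φ ⁻¹' U ∈ 𝓝 (0:ℂ) := hφ.continuousAt (hU.mem_nhds h0)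
  obtain ⟨ε, hε, hb⟩ := Metric.mem_nhds_iff.mp h1
  have h2 : ∀ᶠ r in 𝓝[>] (0:ℝ), r < ε :=
    (eventually_lt_nhds hε).filter_mono nhdsWithin_le_nhds
  filter_upwards [h2, self_mem_nhdsWithin] with r hr hr0 θ
  apply hb
  rw [mem_ball, dist_zero_right]
  have : ‖circleMap 0 r θ‖ = |r| := by simp [circleMap]
  rw [this, abs_of_pos hr0]
  exact hr

theorem PSH.of_local {Ω : Set E} {w : E → EReal}
    (h : ∀ x ∈ Ω, ∃ U : Set E, IsOpen U ∧ x ∈ U ∧ ∃ w' : E → EReal, PSH U w' ∧ ∀ y ∈ U, w y = w' y) :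
    PSH Ω w := by
  refine ⟨?_, ?_, ?_⟩
  · intro x hx y hy
    obtain ⟨U, hU, hxU, w', hw', heq⟩ := h x hx
    have h1 := hw'.usc x hxU y (by show w' x < y; rw [← heq x hxU]; exact hy)
    rw [hU.nhdsWithin_eq hxU] at h1
    have h2 : ∀ᶠ x' in 𝓝 x, w x' < y := by
      filter_upwards [h1, hU.mem_nhds hxU] with x' h3 h4
      rw [heq x' h4]; exact h3
    exact h2.filter_mono nhdsWithin_le_nhds
  · intro x hx
    obtain ⟨U, hU, hxU, w', hw', heq⟩ := h x hx
    rw [heq x hxU]
    exact hw'.lt_top x hxU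
  · intro φ hφ h0
    obtain ⟨U, hU, hxU, w', hw', heq⟩ := h _ h0
    filter_upwards [small_circle hφ hU hxU, hw'.submean φ hφ hxU] with r h1 h2 g hg hle
    rw [heq _ hxU]
    apply h2 g hg
    intro θ
    rw [← heq _ (h1 θ)]
    exact hle θ

theorem PSH.mono {Ω U : Set E} {u : E → EReal} (h : PSH Ω u) (hU : U ⊆ Ω) : PSH U u :=
  ⟨h.usc.mono hU, fun z hz => h.lt_top z (hU hz), fun φ hφ h0 => h.submean φ hφ (hU h0)⟩

theorem PSH.max {Ω : Set E} {u v : E → EReal} (hu : PSH Ω u) (hv : PSH Ω v) :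
    PSH Ω (fun z => Max.max (u z) (v z)) := by
  refine ⟨hu.usc.sup hv.usc, fun z hz => max_lt (hu.lt_top z hz) (hv.lt_top z hz), ?_⟩
  intro φ hφ h0
  filter_upwards [hu.submean φ hφ h0, hv.submean φ hφ h0] with r h1 h2 g hg hle
  apply max_le
  · exact h1 g hg fun θ => (le_max_left _ _).trans (hle θ)
  · exact h2 g hg fun θ => (le_max_right _ _).trans (hle θ)

theorem mean_add (h : ℝ → ℝ) (hh : Continuous h) (c : ℝ) :
    (2 * Real.pi)⁻¹ * ∫ θ in (0:ℝ)..(2 * Real.pi), (h θ + c) =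
      (2 * Real.pi)⁻¹ * (∫ θ in (0:ℝ)..(2 * Real.pi), h θ) + c := by
  rw [intervalIntegral.integral_add (hh.intervalIntegrable _ _) (by simp),
    intervalIntegral.integral_const]
  have := Real.pi_pos
  simp only [sub_zero, smul_eq_mul]
  field_simp

theorem PSH.sub_const {Ω : Set E} {u : E → EReal} (hu : PSH Ω u) (δ : ℝ) :
    PSH Ω (fun z => u z - (δ : EReal)) := by
  have key : ∀ (a : EReal) (y : EReal), a - (δ : EReal) ≤ y ↔ a ≤ y + (δ : EReal) := by
    intro a y
    exact EReal.sub_le_iff_le_add (Or.inl (EReal.coe_ne_bot _)) (Or.inl (EReal.coe_ne_top _))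
  have key2 : ∀ (a : EReal) (y : EReal), a - (δ : EReal) < y ↔ a < y + (δ : EReal) := by
    intro a y
    exact EReal.sub_lt_iff (Or.inl (EReal.coe_ne_bot _)) (Or.inl (EReal.coe_ne_top _))
  refine ⟨?_, ?_, ?_⟩
  · intro x hx y hy
    have h1 := hu.usc x hx (y + (δ : EReal)) ((key2 _ _).mp hy)
    filter_upwards [h1] with x' h2
    exact (key2 _ _).mpr h2
  · intro z hz
    rw [key2]
    rw [EReal.top_add_coe]
    exact hu.lt_top z hz
  · intro φ hφ h0
    filter_upwards [hu.submean φ hφ h0] with r h1 g hg hle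
    rw [key]
    have h2 := h1 (fun θ => g θ + δ) (by fun_prop) (fun θ => by
      have := (key _ _).mp (hle θ)
      push_cast
      exact this)
    rw [mean_add g hg] at h2
    push_cast at h2 ⊢
    exact h2

theorem PSH.comp {Ω U : Set E} {u : E → EReal} (hu : PSH Ω u) (Φ : E → E)
    (hΦ : ∀ x ∈ U, AnalyticAt ℂ Φ x) (hm : ∀ x ∈ U, Φ x ∈ Ω) : PSH U (fun z => u (Φ z)) := by
  refine ⟨?_, fun z hz => hu.lt_top _ (hm z hz), ?_⟩
  · intro x hx y hy
    have h1 := hu.usc (Φ x) (hm x hx) y hy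
    have h2 : Tendsto Φ (𝓝[U] x) (𝓝[Ω] (Φ x)) := by
      apply tendsto_nhdsWithin_of_tendsto_nhds_of_eventually_within
      · exact (hΦ x hx).continuousAt.tendsto.mono_left nhdsWithin_le_nhds
      · exact eventually_nhdsWithin_of_forall fun x' hx' => hm x' hx'
    exact h2.eventually h1
  · intro φ hφ h0
    have h1 : AnalyticAt ℂ (fun z => Φ (φ z)) 0 := (hΦ _ h0).comp hφ
    exact hu.submean (fun z => Φ (φ z)) h1 (hm _ h0)

theorem PSH.mul_real {Ω : Set E} {ρ : E → ℝ} (hρ : PSH Ω (fun z => (ρ z : EReal))) (M : ℝ)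
    (hM : 0 < M) : PSH Ω (fun z => ((M * ρ z : ℝ) : EReal)) := by
  refine ⟨?_, fun z _ => EReal.coe_lt_top _, ?_⟩
  · intro x hx y hy
    induction y with
    | bot => exact absurd hy not_lt_bot
    | top => exact Eventually.of_forall fun x' => EReal.coe_lt_top _
    | coe y =>
      have h1 : ((ρ x : ℝ) : EReal) < ((y / M : ℝ) : EReal) := by
        rw [EReal.coe_lt_coe_iff] at hy ⊢
        rw [lt_div_iff₀ hM]
        linarith
      filter_upwards [hρ.usc x hx _ h1] with x' h2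
      rw [EReal.coe_lt_coe_iff] at h2 ⊢
      rw [lt_div_iff₀ hM] at h2
      linarith
  · intro φ hφ h0
    filter_upwards [hρ.submean φ hφ h0] with r h1 g hg hle
    have h2 := h1 (fun θ => g θ / M) (by fun_prop) (fun θ => by
      have := hle θ
      rw [EReal.coe_le_coe_iff] at this ⊢
      rw [le_div_iff₀ hM]
      linarith)
    rw [EReal.coe_le_coe_iff, intervalIntegral.integral_div] at h2
    rw [EReal.coe_le_coe_iff]
    have h3 := mul_le_mul_of_nonneg_left h2 hM.le
    calc M * ρ (φ 0) ≤ _ := h3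
      _ = _ := by field_simp

/-- extended logarithm of a nonnegative real -/
noncomputable def elog (x : ℝ) : EReal := ENNReal.log (ENNReal.ofReal x)

theorem elog_pos {x : ℝ} (hx : 0 < x) : elog x = ((Real.log x : ℝ) : EReal) :=
  ENNReal.log_ofReal_of_pos hx

theorem continuous_elog : Continuous elog := ENNReal.continuous_log.comp ENNReal.continuous_ofReal

theorem elog_mono {x y : ℝ} (h : x ≤ y) : elog x ≤ elog y :=
  ENNReal.log_monotone (ENNReal.ofReal_le_ofReal h)

theorem elog_lt_top (x : ℝ) : elog x < ⊤ := by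
  unfold elog
  rw [ENNReal.log_lt_top_iff]
  exact ENNReal.ofReal_lt_top

theorem scalar_mean (f : ℂ → ℂ) (hf : AnalyticAt ℂ f 0) (h0 : f 0 ≠ 0) :
    ∀ᶠ r in 𝓝[>] (0:ℝ), ∀ h : ℝ → ℝ, Continuous h →
      (∀ θ : ℝ, f (circleMap 0 r θ) ≠ 0 → Real.log ‖f (circleMap 0 r θ)‖ ≤ h θ) →
      Real.log ‖f 0‖ ≤ (2 * Real.pi)⁻¹ * ∫ θ in (0:ℝ)..(2 * Real.pi), h θ := by
  have h1 : ∀ᶠ z in 𝓝 (0:ℂ), AnalyticAt ℂ f z ∧ f z ≠ 0 :=
    hf.eventually_analyticAt.and (hf.continuousAt.eventually_ne h0)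
  obtain ⟨ε, hε, hb⟩ := Metric.eventually_nhds_iff_ball.mp h1
  have h2 : ∀ᶠ r in 𝓝[>] (0:ℝ), r < ε :=
    (eventually_lt_nhds hε).filter_mono nhdsWithin_le_nhds
  filter_upwards [h2, self_mem_nhdsWithin] with r hr hr0 h hh hle
  rw [Set.mem_Ioi] at hr0
  have hsub : closedBall (0:ℂ) |r| ⊆ ball 0 ε := by
    rw [abs_of_pos hr0]
    exact closedBall_subset_ball hr
  have h3 := AnalyticOnNhd.circleAverage_log_norm_of_ne_zero (R := r) (c := 0) (g := f)
    (fun z hz => (hb z (hsub hz)).1) (fun z hz => (hb z (hsub hz)).2)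
  rw [← h3, Real.circleAverage_def, smul_eq_mul]
  apply mul_le_mul_of_nonneg_left _ (by have := Real.pi_pos; positivity)
  have hmem : ∀ θ : ℝ, circleMap (0:ℂ) r θ ∈ ball (0:ℂ) ε := by
    intro θ
    apply hsub
    rw [abs_of_pos hr0]
    exact circleMap_mem_closedBall 0 hr0.le θ
  apply intervalIntegral.integral_mono_on (by have := Real.pi_pos; positivity)
  · apply Continuous.intervalIntegrable
    rw [continuous_iff_continuousAt]
    intro θ
    have h4 := hb _ (hmem θ)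
    apply ContinuousAt.log
    · exact (h4.1.continuousAt.comp (f := fun θ => circleMap (0:ℂ) r θ)
        (continuous_circleMap 0 r).continuousAt).norm
    · exact norm_ne_zero_iff.mpr h4.2
  · exact hh.intervalIntegrable _ _
  · intro θ _
    exact hle θ (hb _ (hmem θ)).2

/-- the basic competitor -/
noncomputable def bz {N : ℕ} (a : Fin N → E) (R : ℝ) (ζ : E) : EReal :=
  elog (∏ j, (‖ζ - a j‖ / R))

theorem bz_psh {N : ℕ} (a : Fin N → E) (R : ℝ) (hR : 0 < R) : PSH Set.univ (bz a R) := by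
  have hc : Continuous (bz a R) := by
    unfold bz
    apply continuous_elog.comp
    apply continuous_finsetProd
    intro j _
    fun_prop
  refine ⟨hc.upperSemicontinuous.upperSemicontinuousOn _, fun z _ => elog_lt_top _, ?_⟩
  intro φ hφ _
  by_cases hz : ∏ j, (‖φ 0 - a j‖ / R) = 0
  · refine Eventually.of_forall fun r h _ _ => ?_
    have : bz a R (φ 0) = ⊥ := by
      unfold bz elog
      rw [hz]
      simp
    rw [this]
    exact bot_le
  · choose g hg1 hg2 using fun j => exists_dual_vector'' ℂ (φ 0 - a j)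
    set f : ℂ → ℂ := fun z => ∏ j, (g j (φ z - a j) / R) with hf
    have hfa : AnalyticAt ℂ f 0 := by
      rw [hf]
      apply Finset.analyticAt_fun_prod
      intro j _
      have h1 : AnalyticAt ℂ (fun z => φ z - a j) 0 := hφ.sub analyticAt_const
      have h2 : AnalyticAt ℂ (fun z => g j (φ z - a j)) 0 :=
        ((g j).analyticAt _).comp h1
      exact h2.div_const
    have hf0 : ‖f 0‖ = ∏ j, (‖φ 0 - a j‖ / R) := by
      rw [hf]
      simp only
      rw [norm_prod]
      apply Finset.prod_congr rfl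
      intro j _
      rw [norm_div, hg2]
      simp [abs_of_pos hR]
    have hfle : ∀ z, ‖f z‖ ≤ ∏ j, (‖φ z - a j‖ / R) := by
      intro z
      rw [hf]
      simp only
      rw [norm_prod]
      apply Finset.prod_le_prod
      · intro j _; positivity
      · intro j _
        rw [norm_div]
        have h3 : ‖(R : ℂ)‖ = R := by simp [abs_of_pos hR]
        rw [h3]
        apply div_le_div_of_nonneg_right _ hR.le
        refine ((g j).le_opNorm _).trans ?_
        have := mul_le_mul_of_nonneg_right (hg1 j) (norm_nonneg (φ z - a j))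
        rwa [one_mul] at this
    have hf0' : f 0 ≠ 0 := by
      intro h
      rw [h, norm_zero] at hf0
      exact hz hf0.symm
    filter_upwards [scalar_mean f hfa hf0'] with r hr h hh hle
    have h4 : 0 < ∏ j, (‖φ 0 - a j‖ / R) := by rw [← hf0]; exact norm_pos_iff.mpr hf0'
    unfold bz
    rw [elog_pos h4, EReal.coe_le_coe_iff, ← hf0]
    apply hr h hh
    intro θ hne
    have h5 : 0 < ∏ j, (‖φ (circleMap 0 r θ) - a j‖ / R) :=
      lt_of_lt_of_le (norm_pos_iff.mpr hne) (hfle _)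
    have h6 := hle θ
    unfold bz at h6
    rw [elog_pos h5, EReal.coe_le_coe_iff] at h6
    exact (Real.log_le_log (norm_pos_iff.mpr hne) (hfle _)).trans h6

end V1171.GF
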